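import Mathlib

namespace Pool.Agent.H.MP_b30f08_an

open Filter Topology

variable {𝕜 : Type} [RCLike 𝕜]

/-- the `ℓ_p` norm (the sup norm for `p = ⊤`) -/
noncomputable def nm (p : ENNReal) (f : ℕ → 𝕜) : ℝ :=
  if p = ⊤ then ⨆ j, ‖f j‖ else (∑' j, ‖f j‖ ^ p.toReal) ^ (1 / p.toReal)

/-- membership in `ℓ_p` (in `c_0` for `p = ⊤`) -/
def Sq (p : ENNReal) (f : ℕ → 𝕜) : Prop := Memℓp f p ∧ Tendsto f atTop (𝓝 0)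

/-- the weighted sequence -/
def mw (x : ℕ → 𝕜) (w : ℕ → ℝ) : ℕ → 𝕜 := fun j => x j * (w j : 𝕜)

/-- the coechelon space -/
def kk (𝕜 : Type) [RCLike 𝕜] (p : ENNReal) (v : ℕ → ℕ → ℝ) : Submodule 𝕜 (ℕ → 𝕜) :=
  Submodule.span 𝕜 {x | ∃ m, Sq p (mw x (v m))}

/-- seminorms that are bounded on every step -/
def Adm {p : ENNReal} {v : ℕ → ℕ → ℝ} (q : Seminorm 𝕜 (kk 𝕜 p v)) : Prop :=
  ∀ m, ∃ C : ℝ, ∀ x : kk 𝕜 p v, Sq p (mw x.1 (v m)) → q x ≤ C * nm p (mw x.1 (v m))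

/-- the locally convex inductive limit topology -/
def top (𝕜 : Type) [RCLike 𝕜] (p : ENNReal) (v : ℕ → ℕ → ℝ) : TopologicalSpace (kk 𝕜 p v) :=
  TopologicalSpace.generateFrom {U | ∃ q x r, Adm q ∧ U = {y | q (y - x) < r}}

/-- nuclear locally convex space -/
def Nuc (𝕜 E : Type) [RCLike 𝕜] [AddCommGroup E] [Module 𝕜 E] (t : TopologicalSpace E) : Prop :=
  ∀ P : Seminorm 𝕜 E, Continuous P → ∃ (Q : Seminorm 𝕜 E) (l : ℕ → ℝ) (f : ℕ → E →ₗ[𝕜] 𝕜)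
    (y : ℕ → E), Continuous Q ∧ Summable l ∧ (∀ n, 0 ≤ l n ∧ P (y n) ≤ 1 ∧ ∀ x, ‖f n x‖ ≤ Q x) ∧
      ∀ x, Tendsto (fun N => P (x - ∑ n ∈ Finset.range N, ((l n : 𝕜) * f n x) • y n)) atTop (𝓝 0)

/-- topologically ergodic -/
def Erg {E : Type} (t : TopologicalSpace E) (T : E → E) : Prop :=
  ∀ U W : Set E, IsOpen U → IsOpen W → U.Nonempty → W.Nonempty →
    ∃ q : ℕ, ∀ n, 1 ≤ n → ∃ k, n ≤ k ∧ k ≤ n + q ∧ ∃ x ∈ U, T^[k] x ∈ W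

/-- sequentially hypercyclic -/
def SeqHC {E : Type} (t : TopologicalSpace E) (T : E → E) : Prop :=
  ∃ x, ∀ y, ∃ n : ℕ → ℕ, Tendsto (fun k => T^[n k] x) atTop (𝓝 y)

end Pool.Agent.H.MP_b30f08_an
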