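import Mathlib
import Pool.Agent.H.MP_b30f08_an.Defs

namespace Pool.Agent.H.MP_b30f08_an

open Set Filter Topology

variable {𝕜 : Type} [RCLike 𝕜] {p : ENNReal} [hp : Fact (1 ≤ p)] {f g : ℕ → 𝕜}

theorem p0 : p ≠ 0 := (zero_lt_one.trans_le hp.out).ne'

theorem nm_eq (f : lp (fun _ : ℕ => 𝕜) p) : nm p f = ‖f‖ := by
  unfold nm
  split_ifs with h
  · subst h
    rfl
  · exact (lp.norm_eq_tsum_rpow (ENNReal.toReal_pos p0 h) f).symm

theorem nm_nonneg (h : Memℓp f p) : 0 ≤ nm p f := (nm_eq ⟨f, h⟩).symm ▸ norm_nonneg _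

theorem nm_le (h : Memℓp f p) {c : ℝ} (hc : 0 ≤ c) (H : ∀ j, ‖g j‖ ≤ c * ‖f j‖) :
    Memℓp g p ∧ nm p g ≤ c * nm p f := by
  have H' : ∀ j, ‖g j‖ ≤ ‖((c : 𝕜) • (⟨f, h⟩ : lp (fun _ : ℕ => 𝕜) p)) j‖ := fun j =>
    (H j).trans_eq (by simp [norm_smul, abs_of_nonneg hc])
  have a := (lp.memℓp _).mono' H'
  refine ⟨a, (nm_eq ⟨g, a⟩).trans_le ((lp.norm_mono p0 H').trans_eq ?_)⟩
  rw [norm_smul, RCLike.norm_ofReal, abs_of_nonneg hc, nm_eq ⟨f, h⟩]

theorem Sq.le (h : Sq p f) {c : ℝ} (hc : 0 ≤ c) (H : ∀ j, ‖g j‖ ≤ c * ‖f j‖) : Sq p g :=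
  ⟨(nm_le h.1 hc H).1, squeeze_zero_norm H (by simpa using h.2.norm.const_mul c)⟩

theorem le_nm (h : Memℓp f p) (j : ℕ) : ‖f j‖ ≤ nm p f :=
  (nm_eq ⟨f, h⟩).symm ▸ lp.norm_apply_le_norm p0 ⟨f, h⟩ j

theorem nm_add (h : Memℓp f p) (h' : Memℓp g p) : nm p (f + g) ≤ nm p f + nm p g := by
  have := norm_add_le (⟨f, h⟩ : lp (fun _ : ℕ => 𝕜) p) ⟨g, h'⟩
  rwa [← nm_eq, ← nm_eq, ← nm_eq] at this

omit hp in
theorem sq_fin {N : ℕ} (h : ∀ j, N ≤ j → f j = 0) : Sq p f :=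
  ⟨(memℓp_zero ((finite_lt_nat N).subset fun j hj => not_le.1 fun a => hj (h j a))).of_exponent_ge
    bot_le, tendsto_const_nhds.congr' ((eventually_ge_atTop N).mono fun j hj => (h j hj).symm)⟩

theorem tail (h : Sq p f) :
    Tendsto (fun N => nm p fun j => if N ≤ j then f j else 0) atTop (𝓝 0) := by
  have m : ∀ N, Memℓp (fun j => if N ≤ j then f j else 0) p := fun N =>
    h.1.mono' fun j => by split_ifs <;> simp
  by_cases e : p = ⊤
  · subst e
    refine tendsto_order.2 ⟨fun a ha => Eventually.of_forall fun N => ha.trans_le (nm_nonneg (m N)),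
      fun a ha => ?_⟩
    obtain ⟨N, hN⟩ := eventually_atTop.1 (h.2.norm.eventually (gt_mem_nhds
      (show ‖(0 : 𝕜)‖ < a / 2 by simpa using ha)))
    filter_upwards [eventually_ge_atTop N] with M hM
    refine ((nm_eq ⟨_, m M⟩).trans_le (lp.norm_le_of_forall_le (C := a / 2) (by linarith)
      fun j => ?_)).trans_lt (by linarith)
    show ‖if M ≤ j then f j else 0‖ ≤ _
    split_ifs with x
    · exact (hN j (hM.trans x)).le
    · rw [norm_zero]; linarith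
  · have := ((tendsto_const_nhds (x := (⟨f, h.1⟩ : lp (fun _ : ℕ => 𝕜) p))).sub
      (lp.hasSum_single e ⟨f, h.1⟩).tendsto_sum_nat).norm
    rw [sub_self, norm_zero] at this
    refine this.congr fun N => ?_
    rw [← nm_eq]
    congr 1
    funext j
    simp only [lp.coeFn_sub, lp.coeFn_sum, Pi.sub_apply, Finset.sum_apply, lp.single_apply,
      Finset.sum_pi_single, Finset.mem_range]
    split_ifs <;> first | omega | simp

omit hp in
theorem mw_norm (x : ℕ → 𝕜) {w : ℕ → ℝ} (hw : ∀ j, 0 ≤ w j) (j : ℕ) : ‖mw x w j‖ = ‖x j‖ * w j := by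
  simp [mw, abs_of_nonneg (hw j)]

omit hp in
theorem mw_add (x y : ℕ → 𝕜) (w : ℕ → ℝ) : mw (x + y) w = mw x w + mw y w :=
  funext fun _ => add_mul _ _ _

theorem mw_le {x : ℕ → 𝕜} {w w' : ℕ → ℝ} (hw : ∀ j, 0 ≤ w j) (hw' : ∀ j, 0 ≤ w' j) {c : ℝ}
    (hc : 0 ≤ c) (H : ∀ j, w' j ≤ c * w j) (h : Sq p (mw x w)) :
    Sq p (mw x w') ∧ nm p (mw x w') ≤ c * nm p (mw x w) := by
  have : ∀ j, ‖mw x w' j‖ ≤ c * ‖mw x w j‖ := fun j => by
    rw [mw_norm x hw, mw_norm x hw', mul_left_comm]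
    exact mul_le_mul_of_nonneg_left (H j) (norm_nonneg _)
  exact ⟨h.le hc this, (nm_le h.1 hc this).2⟩

structure Wt (v : ℕ → ℕ → ℝ) : Prop where
  pos : ∀ m j, 0 < v m j
  anti : ∀ j, Antitone fun m => v m j

variable {v : ℕ → ℕ → ℝ}

theorem Wt.up (h : Wt v) {x : ℕ → 𝕜} {m n : ℕ} (hm : m ≤ n) (hx : Sq p (mw x (v m))) :
    Sq p (mw x (v n)) ∧ nm p (mw x (v n)) ≤ nm p (mw x (v m)) := by
  simpa using mw_le (fun j => (h.pos m j).le) (fun j => (h.pos n j).le) zero_le_one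
    (fun j => (h.anti j hm).trans_eq (one_mul _).symm) hx

theorem sq_smul {x : ℕ → 𝕜} {w : ℕ → ℝ} (c : 𝕜) (h : Sq p (mw x w)) :
    Sq p (mw (c • x) w) ∧ nm p (mw (c • x) w) ≤ ‖c‖ * nm p (mw x w) := by
  have : ∀ j, ‖mw (c • x) w j‖ ≤ ‖c‖ * ‖mw x w j‖ := fun j => by simp [mw, mul_assoc]
  exact ⟨h.le (norm_nonneg _) this, (nm_le h.1 (norm_nonneg _) this).2⟩

theorem Wt.mem (h : Wt v) (x : kk 𝕜 p v) : ∃ m, Sq p (mw x.1 (v m)) := by
  obtain ⟨x, hx⟩ := x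
  induction hx using Submodule.span_induction with
  | mem x hx => exact hx
  | zero => exact ⟨0, sq_fin (N := 0) fun j _ => zero_mul _⟩
  | add x y _ _ a b =>
    obtain ⟨m, a⟩ := a
    obtain ⟨n, b⟩ := b
    replace a := (h.up (le_max_left m n) a).1
    replace b := (h.up (le_max_right m n) b).1
    exact ⟨max m n, (mw_add x y _).symm ▸ ⟨a.1.add b.1, add_zero (0 : 𝕜) ▸ a.2.add b.2⟩⟩
  | smul c x _ a => exact a.imp fun m a => (sq_smul c a).1

omit hp in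
theorem Adm.cont {q : Seminorm 𝕜 (kk 𝕜 p v)} (h : Adm q) : Continuous[top 𝕜 p v, _] q := by
  letI := top 𝕜 p v
  refine continuous_iff_continuousAt.2 fun x => Metric.tendsto_nhds.2 fun ε hε => ?_
  filter_upwards [IsOpen.mem_nhds (s := {y | q (y - x) < ε})
    (TopologicalSpace.isOpen_generateFrom_of_mem ⟨q, x, ε, h, rfl⟩) (by simpa using hε)] with y hy
  exact (abs_sub_map_le_sub q y x).trans_lt hy

omit hp in
theorem conv {z : ℕ → kk 𝕜 p v} {y : kk 𝕜 p v} {m : ℕ} (h1 : ∀ k, Sq p (mw (z k - y).1 (v m)))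
    (h2 : Tendsto (fun k => nm p (mw (z k - y).1 (v m))) atTop (𝓝 0)) :
    Tendsto z atTop (@nhds _ (top 𝕜 p v) y) := by
  refine TopologicalSpace.tendsto_nhds_generateFrom_iff.2 ?_
  rintro _ ⟨q, x, r, hq, rfl⟩ hy
  obtain ⟨C, hC⟩ := hq m
  filter_upwards [(h2.const_mul C).eventually (gt_mem_nhds
    (show C * 0 < r - q (y - x) by simpa using hy))] with k hk
  have := map_add_le_add q (z k - y) (y - x)
  rw [sub_add_sub_cancel] at this
  show q (z k - x) < r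
  linarith [hC _ (h1 k)]

theorem adm_of {Q : Seminorm 𝕜 (kk 𝕜 p v)} (h : Continuous[top 𝕜 p v, _] Q) : Adm Q := by
  letI := top 𝕜 p v
  intro m
  by_contra hn
  push Not at hn
  choose x x1 x2 using fun k : ℕ => hn (k + 1)
  have q0 : ∀ k, 0 < Q (x k) := fun k =>
    (mul_nonneg (by positivity) (nm_nonneg (x1 k).1)).trans_lt (x2 k)
  have n : ∀ k, ‖(((Q (x k))⁻¹ : ℝ) : 𝕜)‖ = (Q (x k))⁻¹ := fun k => by simp
  have := (h.tendsto 0).comp (conv (z := fun k => (((Q (x k))⁻¹ : ℝ) : 𝕜) • x k) (y := 0) (m := m)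
    (fun k => by rw [sub_zero]; exact (sq_smul _ (x1 k)).1) (squeeze_zero
      (fun k => by rw [sub_zero]; exact nm_nonneg (sq_smul _ (x1 k)).1.1) (fun k => by
        rw [sub_zero]
        refine (sq_smul _ (x1 k)).2.trans ?_
        rw [n, inv_mul_le_iff₀ (q0 k), mul_one_div, le_div_iff₀' (by positivity)]
        exact (x2 k).le) tendsto_one_div_add_atTop_nhds_zero_nat))
  simp only [Function.comp_def, map_smul_eq_mul, n, inv_mul_cancel₀ (q0 _).ne', map_zero,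
    tendsto_const_nhds_iff, one_ne_zero] at this

theorem Wt.sem (h : Wt v) {w : ℕ → ℝ} (hw : ∀ j, 0 ≤ w j) (H : ∀ m, ∀ᶠ j in cofinite, w j ≤ v m j) :
    ∃ P : Seminorm 𝕜 (kk 𝕜 p v), Adm P ∧ ∀ x, Memℓp (mw x.1 w) p ∧ P x = nm p (mw x.1 w) := by
  have k : ∀ m, ∃ C, 0 ≤ C ∧ ∀ j, w j ≤ C * v m j := fun m => by
    obtain ⟨C, hC⟩ := ((H m).image fun j => w j / v m j).bddAbove
    refine ⟨max C 1, by positivity, fun j => ?_⟩
    by_cases e : w j ≤ v m j
    · exact e.trans (le_mul_of_one_le_left (h.pos m j).le (le_max_right _ _))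
    · exact (div_le_iff₀ (h.pos m j)).1 ((hC ⟨j, e, rfl⟩).trans (le_max_left _ _))
  choose C c0 hC using k
  have m : ∀ x : kk 𝕜 p v, Memℓp (mw x.1 w) p := fun x =>
    let ⟨m, hm⟩ := h.mem x; (mw_le (fun j => (h.pos m j).le) hw (c0 m) (hC m) hm).1.1
  let L : kk 𝕜 p v →ₗ[𝕜] lp (fun _ : ℕ => 𝕜) p :=
    { toFun := fun x => ⟨_, m x⟩
      map_add' := fun x y => lp.ext (mw_add _ _ _)
      map_smul' := fun c x => lp.ext (funext fun j => mul_assoc _ _ _) }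
  have e : ∀ x, (normSeminorm 𝕜 _).comp L x = nm p (mw x.1 w) := fun x => (nm_eq (L x)).symm
  exact ⟨_, fun n => ⟨C n, fun x hx => (e x).trans_le
    (mw_le (fun j => (h.pos n j).le) hw (c0 n) (hC n) hx).2⟩, fun x => ⟨m x, e x⟩⟩

omit hp in
theorem fin_mem {N : ℕ} (h : ∀ j, N ≤ j → f j = 0) : f ∈ kk 𝕜 p v :=
  Submodule.subset_span ⟨0, sq_fin (N := N) fun j hj => by rw [mw, h j hj, zero_mul]⟩

theorem Wt.nuc (h : Wt v) (hN : Nuc 𝕜 _ (top 𝕜 p v)) (m : ℕ) :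
    ∃ n, Summable fun j => v n j / v m j := by
  classical
  by_contra hn
  have r0 := fun n j => (div_pos (h.pos n j) (h.pos m j)).le
  have ex : ∀ n : ℕ, ∃ F : Finset ℕ, n < ∑ j ∈ F, v n j / v m j := fun n => by
    by_contra hc
    push Not at hc
    exact hn ⟨n, summable_of_sum_le (r0 n) hc⟩
  choose F hF using ex
  let w : ℕ → ℝ := fun j => if e : ∃ n, j ∈ F n then v (Nat.find e) j else 0
  have w0 : ∀ j, 0 ≤ w j := fun j => by
    simp only [w]
    split_ifs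
    exacts [(h.pos _ _).le, le_rfl]
  obtain ⟨P, p1, p2⟩ := h.sem (𝕜 := 𝕜) (p := p) w0 fun n => ((Finset.range n).biUnion F).finite_toSet.subset
    fun j hj => by
      simp only [w, mem_compl_iff, mem_ofPred_eq] at hj
      split_ifs at hj with e
      · exact Finset.mem_biUnion.2 ⟨_, Finset.mem_range.2 (not_le.1 fun x => hj (h.anti j x)),
          Nat.find_spec e⟩
      · exact absurd (h.pos n j).le hj
  obtain ⟨Q, l, f, y, q1, q2, q3, q4⟩ := hN P p1.cont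
  obtain ⟨C, hC⟩ := adm_of q1 m
  obtain ⟨n, hn⟩ := exists_nat_ge (∑' k, l k * max C 0)
  let x : ℕ → kk 𝕜 p v := fun j => ⟨Pi.single j ((v m j : 𝕜))⁻¹,
    fin_mem (N := j + 1) fun i hi => Pi.single_eq_of_ne (by omega) _⟩
  have lim : Tendsto (fun N => ∑ j ∈ F n, ∑ k ∈ Finset.range N,
      ((l k : 𝕜) * f k (x j)) * mw (y k).1 w j) atTop (𝓝 (∑ j ∈ F n, ((w j / v m j : ℝ) : 𝕜))) := by
    refine tendsto_finsetSum _ fun j _ => tendsto_iff_norm_sub_tendsto_zero.2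
      (squeeze_zero (fun _ => norm_nonneg _) (fun N => ?_) (q4 (x j)))
    refine Eq.trans_le ?_ ((le_nm (p2 _).1 j).trans_eq (p2 _).2.symm)
    rw [norm_sub_rev]
    congr 1
    simp [mw, x, sub_mul, Finset.sum_mul, mul_assoc, div_eq_inv_mul]
  have bd : ∀ k, ‖∑ j ∈ F n, f k (x j) * mw (y k).1 w j‖ ≤ max C 0 := fun k => by
    have e : ∀ i, ‖mw (∑ j ∈ F n, mw (y k).1 w j • x j).1 (v m) i‖ ≤ 1 * ‖mw (y k).1 w i‖ := by
      intro i
      have : (v m i : 𝕜) ≠ 0 := RCLike.ofReal_ne_zero.2 (h.pos m i).ne'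
      rw [mw]
      simp only [x, AddSubmonoidClass.coe_finsetSum, SetLike.mk_smul_mk, Finset.sum_apply,
        Pi.smul_apply, Pi.single_apply, smul_eq_mul, mul_ite, mul_zero, Finset.sum_ite_eq]
      split_ifs
      · rw [inv_mul_cancel_right₀ this, one_mul]
      · simp
    have a := nm_le (p2 (y k)).1 zero_le_one e
    have b : Sq p (mw (∑ j ∈ F n, mw (y k).1 w j • x j).1 (v m)) := sq_fin (N := (F n).sup id + 1)
      fun i hi => by
        have : i ∉ F n := fun a => by have := Finset.le_sup (f := id) a; simp at this; omega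
        simp [mw, x, Pi.single_apply, this]
    have c := ((q3 k).2.2 _).trans (hC _ b)
    simp only [map_sum, map_smul, smul_eq_mul, mul_comm (mw _ _ _)] at c
    refine c.trans ((mul_le_mul_of_nonneg_right (le_max_left C 0) (nm_nonneg b.1)).trans
      (mul_le_of_le_one_right (le_max_right _ _) (a.2.trans ?_)))
    rw [one_mul, ← (p2 _).2]
    exact (q3 k).2.1
  have := le_of_tendsto' lim.norm (b := ∑' k, l k * max C 0) fun N => by
    rw [Finset.sum_comm]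
    refine (norm_sum_le_of_le _ fun k _ => ?_).trans ((q2.mul_right _).sum_le_tsum _
      fun k _ => mul_nonneg (q3 k).1 (le_max_right _ _))
    simp only [mul_assoc, ← Finset.mul_sum]
    rw [norm_mul, RCLike.norm_ofReal, abs_of_nonneg (q3 k).1]
    exact mul_le_mul_of_nonneg_left (bd k) (q3 k).1
  rw [← RCLike.ofReal_sum, RCLike.norm_ofReal] at this
  refine absurd (hF n) (not_lt.2 (le_trans (Finset.sum_le_sum fun j hj => ?_)
    ((le_abs_self _).trans (this.trans hn))))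
  refine div_le_div_of_nonneg_right ?_ (h.pos m j).le
  simp only [w, dif_pos (⟨n, hj⟩ : ∃ n, j ∈ F n)]
  exact h.anti j (Nat.find_min' _ hj)

end Pool.Agent.H.MP_b30f08_an
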