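import Mathlib
import Pool.Agent.H.MP_b30f08_an.A

namespace Pool.Agent.H.MP_b30f08_an

open Set Filter Topology

variable {𝕜 : Type} [RCLike 𝕜] {p : ENNReal} [hp : Fact (1 ≤ p)] {v : ℕ → ℕ → ℝ}
  {B : kk 𝕜 p v → kk 𝕜 p v}

omit hp in
theorem iter (hB : ∀ x j, (B x).1 j = x.1 (j + 1)) (n : ℕ) : ∀ x j, (B^[n] x).1 j = x.1 (j + n) := by
  induction n with
  | zero => exact fun _ _ => rfl
  | succ n ih => exact fun x j => by rw [Function.iterate_succ_apply, ih, hB, add_assoc]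

theorem Wt.syn (h : Wt v) (hB : ∀ x j, (B x).1 j = x.1 (j + 1)) (hE : Erg (top 𝕜 p v) B) :
    ∃ k, ∀ n, ∃ i ≤ k, v k (n + 1 + i) ≤ 1 := by
  classical
  by_contra hn
  push Not at hn
  choose a ha using hn
  let w : ℕ → ℝ := fun j => if ∃ k, ∃ i ≤ k, j = a k + 1 + i then 1 else 0
  have w0 : ∀ j, 0 ≤ w j := fun j => by
    simp only [w]
    split_ifs <;> norm_num
  obtain ⟨P, p1, p2⟩ := h.sem (𝕜 := 𝕜) (p := p) w0 fun m =>
    (finite_lt_nat ((Finset.range m).sup a + m + 1)).subset fun j hj => by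
      simp only [w, mem_compl_iff, mem_ofPred_eq] at hj
      split_ifs at hj with e
      · obtain ⟨k, i, hi, rfl⟩ := e
        have b : k < m := not_le.1 fun x => hj ((ha k i hi).le.trans (h.anti _ x))
        have := Finset.le_sup (f := a) (Finset.mem_range.2 b)
        exact (show a k + 1 + i < _ by omega)
      · exact absurd (h.pos m j).le hj
  have w1 : ∀ j, 0 ≤ (Pi.single 0 1 : ℕ → ℝ) j := fun j => by
    rw [Pi.single_apply]
    split_ifs <;> norm_num
  obtain ⟨P', p1', p2'⟩ := h.sem (𝕜 := 𝕜) (p := p) w1 fun m => (finite_singleton 0).subset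
    fun j hj => by_contra fun e => hj (mem_ofPred_eq ▸
      ((Pi.single_eq_of_ne (M := fun _ => ℝ) e 1).trans_le (h.pos m j).le))
  let u : kk 𝕜 p v := ⟨Pi.single 0 2, fin_mem (N := 1) fun i hi => Pi.single_eq_of_ne (by omega) _⟩
  obtain ⟨q, hq⟩ := hE _ _ (TopologicalSpace.isOpen_generateFrom_of_mem ⟨P, 0, 1, p1, rfl⟩)
    (TopologicalSpace.isOpen_generateFrom_of_mem ⟨P', u, 1, p1', rfl⟩) ⟨0, by simp⟩ ⟨u, by simp⟩
  obtain ⟨k, k1, k2, x, x1, x2⟩ := hq (a q + 1) (by omega)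
  have b1 := ((le_nm (p2 _).1 k).trans_eq (p2 _).2.symm).trans_lt x1
  have b2 := ((le_nm (p2' _).1 0).trans_eq (p2' _).2.symm).trans_lt x2
  have e : w k = 1 := if_pos ⟨q, k - (a q + 1), by omega, by omega⟩
  simp only [mw, e, sub_zero, RCLike.ofReal_one, mul_one] at b1
  simp only [mw, Pi.single_eq_same, RCLike.ofReal_one, mul_one, AddSubgroupClass.coe_sub,
    Pi.sub_apply, iter hB, u, zero_add] at b2
  have := norm_sub_le (x.1 k) (x.1 k - 2)
  rw [sub_sub_cancel, RCLike.norm_two] at this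
  linarith

theorem Wt.l1 (h : Wt v) (hc : ∀ m, ∃ n, m ≤ n ∧ ∃ C, 0 < C ∧ ∀ j, v n j ≤ C * v m (j + 1))
    (hB : ∀ x j, (B x).1 j = x.1 (j + 1)) (hN : Nuc 𝕜 _ (top 𝕜 p v)) (hE : Erg (top 𝕜 p v) B) :
    ∃ m, Summable (v m) := by
  obtain ⟨k, hk⟩ := h.syn hB hE
  have : ∀ q, ∃ n C, 0 < C ∧ ∀ i ≤ q, ∀ j, v n j ≤ C * v k (j + i) := fun q => by
    induction q with
    | zero => exact ⟨k, 1, one_pos, fun i hi j => by simp [Nat.le_zero.1 hi]⟩
    | succ q ih =>
      obtain ⟨n, C, c0, hC⟩ := ih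
      obtain ⟨n', a, C', c0', hC'⟩ := hc n
      refine ⟨n', C + C' * C, by positivity, fun i hi j => ?_⟩
      rcases hi.eq_or_lt with rfl | hi
      · have := mul_le_mul_of_nonneg_left (hC q le_rfl (j + 1)) c0'.le
        rw [show j + 1 + q = j + (q + 1) by omega] at this
        nlinarith [hC' j, mul_pos c0 (h.pos k (j + (q + 1)))]
      · nlinarith [hC i (by omega) j, h.anti j a, mul_pos (mul_pos c0' c0) (h.pos k (j + i))]
  obtain ⟨n, C, c0, hC⟩ := this (k + 1)
  obtain ⟨m, hm⟩ := h.nuc hN n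
  refine ⟨m, (hm.mul_right C).of_nonneg_of_le (fun j => (h.pos m j).le) fun j => ?_⟩
  obtain ⟨i, hi, e⟩ := hk j
  rw [div_mul_eq_mul_div, le_div_iff₀ (h.pos n j)]
  refine mul_le_mul_of_nonneg_left ((hC (1 + i) (by omega) j).trans ?_) (h.pos m j).le
  rw [← add_assoc]
  exact mul_le_of_le_one_right c0.le e

theorem Wt.main (h : Wt v) (hc : ∀ m, ∃ n, m ≤ n ∧ ∃ C, 0 < C ∧ ∀ j, v n j ≤ C * v m (j + 1))
    (hB : ∀ x j, (B x).1 j = x.1 (j + 1)) (hN : Nuc 𝕜 _ (top 𝕜 p v)) (hE : Erg (top 𝕜 p v) B) :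
    SeqHC (top 𝕜 p v) B := by
  obtain ⟨m, hm⟩ := h.l1 hc hB hN hE
  obtain ⟨n, hn⟩ := h.nuc hN m
  have vp := fun m j => (h.pos m j).le
  let u : ℕ → 𝕜 := mw 1 (v m)
  have un : ∀ j, ‖u j‖ = v m j := fun j => by simp [u, mw_norm _ (vp m)]
  have us : Sq p u := ⟨(memℓp_gen (p := 1) (by simpa [un] using hm)).of_exponent_ge hp.out,
    tendsto_zero_iff_norm_tendsto_zero.2 (by simpa [un] using hm.tendsto_atTop_zero)⟩
  obtain ⟨e, he⟩ := exists_surjective_nat (ℕ × ℕ × (ℕ →₀ ℕ))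
  let z : ℕ → ℕ → 𝕜 := fun k j =>
    if j < (e k).2.1 then TopologicalSpace.denseSeq 𝕜 ((e k).2.2 j) else 0
  have z0 : ∀ k j, (e k).2.1 ≤ j → z k j = 0 := fun k j hj => if_neg (not_lt.2 hj)
  have exg : ∀ k, ∃ g, ∀ j, g ≤ j → ∀ i, ‖z k i‖ * v n j ≤ v m j := fun k => by
    obtain ⟨g, hg⟩ := eventually_atTop.1 ((hn.tendsto_atTop_zero.const_mul
      (∑ i ∈ Finset.range (e k).2.1, ‖z k i‖)).eventually (gt_mem_nhds (by simp : _ < (1 : ℝ))))
    refine ⟨g, fun j hj i => ?_⟩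
    have := (hg j hj).le
    rw [← mul_div_assoc, div_le_one (h.pos m j)] at this
    refine le_trans (mul_le_mul_of_nonneg_right ?_ (vp n j)) this
    by_cases hi : i < (e k).2.1
    · exact Finset.single_le_sum (f := fun i => ‖z k i‖) (fun _ _ => norm_nonneg _)
        (Finset.mem_range.2 hi)
    · rw [z0 k i (not_lt.1 hi), norm_zero]
      positivity
  choose g hg using exg
  let N : ℕ → ℕ := fun k => k.rec 0 fun k t => t + (g (k + 1) + (e k).2.1 + k + 1)
  have N1 : ∀ k, N (k + 1) = N k + (g (k + 1) + (e k).2.1 + k + 1) := fun _ => rfl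
  have N2 : StrictMono N := strictMono_nat_of_lt_succ fun k => by rw [N1]; omega
  have ex : ∀ j, ∃ k, j < N (k + 1) := fun j => ⟨j, N2.le_apply (x := j + 1)⟩
  let x : ℕ → 𝕜 := fun j => z (Nat.find (ex j)) (j - N (Nat.find (ex j)))
  have key : ∀ k j, ‖mw ((fun j => x (j + N k)) - z k) (v n) j‖ ≤ 1 * ‖if k ≤ j then u j else 0‖ := by
    intro k j
    rw [mw_norm _ (vp n), one_mul]
    have a : k ≤ Nat.find (ex (j + N k)) := (Nat.le_find_iff _ _).2 fun i hi =>
      not_lt.2 ((N2.monotone hi).trans (Nat.le_add_left _ _))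
    rcases a.eq_or_lt with a | a
    · simp [x, ← a]
    · obtain ⟨i, hi⟩ := Nat.exists_eq_add_of_lt a
      have b : N (k + i + 1) ≤ j + N k := not_lt.1 (Nat.find_min (ex (j + N k)) (by omega))
      have b2 := N2.monotone (show k + 1 ≤ k + i + 1 by omega)
      have b3 := N2.monotone (show k ≤ k + i by omega)
      have b4 := N1 k
      have b5 := N1 (k + i)
      rw [if_pos (by omega), un, Pi.sub_apply, z0 k j (by omega), sub_zero]
      exact hg _ j (by rw [hi]; omega) _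
  have ts : ∀ k, Sq p fun j => if k ≤ j then u j else 0 := fun k =>
    us.le zero_le_one fun j => by split_ifs <;> simp
  have zm : ∀ k, z k ∈ kk 𝕜 p v := fun k => fin_mem (z0 k)
  have xm : x ∈ kk 𝕜 p v := by
    have := add_mem (show _ ∈ kk 𝕜 p v from Submodule.subset_span
      ⟨n, (ts 0).le zero_le_one (key 0)⟩) (zm 0)
    rwa [sub_add_cancel] at this
  refine ⟨⟨x, xm⟩, fun y => ?_⟩
  obtain ⟨r, hr⟩ := h.mem y
  have apx : ∀ k : ℕ, ∃ i, (e i).1 = k ∧ (e i).2.1 = k ∧ ∀ j < k,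
      ‖mw (z i - y.1) (v r) j‖ ≤ 1 / (k + 1) * ‖u j‖ := fun k => by
    choose c hc using fun j => (TopologicalSpace.denseRange_denseSeq 𝕜).exists_dist_lt (y.1 j)
      (show 0 < 1 / (k + 1) * v m j / v r j by have := h.pos m j; have := h.pos r j; positivity)
    obtain ⟨i, hi⟩ := he (k, k, Finsupp.onFinset (Finset.range k)
      (fun j => if j < k then c j else 0) fun j hj => by grind)
    refine ⟨i, by rw [hi], by rw [hi], fun j hj => ?_⟩
    rw [mw_norm _ (vp r), un, ← le_div_iff₀ (h.pos r j), Pi.sub_apply, ← dist_eq_norm']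
    simpa [z, hi, hj] using (hc j).le
  choose i i1 i2 i3 using apx
  have est : ∀ k, Sq p (mw (B^[N (i k)] ⟨x, xm⟩ - y).1 (v (max n r))) ∧
      nm p (mw (B^[N (i k)] ⟨x, xm⟩ - y).1 (v (max n r))) ≤
        (nm p fun j => if i k ≤ j then u j else 0) + (1 / (k + 1) * nm p u +
          nm p fun j => if k ≤ j then mw y.1 (v r) j else 0) := fun k => by
    have e1 : (B^[N (i k)] ⟨x, xm⟩ - y).1 =
        ((fun j => x (j + N (i k))) - z (i k)) + (z (i k) - y.1) := by
      funext j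
      simp [iter hB]
    have a1 := h.up (le_max_left n r) ((ts _).le zero_le_one (key (i k)))
    have a2 := (nm_le (ts _).1 zero_le_one (key (i k))).2
    have e2 : mw (z (i k) - y.1) (v r) = (fun j => if j < k then mw (z (i k) - y.1) (v r) j else 0)
        + fun j => if k ≤ j then mw (z (i k) - y.1) (v r) j else 0 := by
      funext j
      by_cases hj : j < k <;> simp [hj, not_lt.1, not_le.2]
    have b1 : ∀ j, ‖if j < k then mw (z (i k) - y.1) (v r) j else 0‖ ≤ 1 / (k + 1) * ‖u j‖ := by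
      intro j
      split_ifs with hj
      · exact i3 k j hj
      · rw [norm_zero]
        positivity
    have b2 : ∀ j, ‖if k ≤ j then mw (z (i k) - y.1) (v r) j else 0‖ ≤
        1 * ‖if k ≤ j then mw y.1 (v r) j else 0‖ := fun j => by
      split_ifs with hj
      · simp [mw, z0 _ _ ((i2 k).trans_le hj)]
      · simp
    have ty : Sq p fun j => if k ≤ j then mw y.1 (v r) j else 0 :=
      hr.le zero_le_one fun j => by split_ifs <;> simp
    have c1 := us.le (by positivity) b1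
    have c2 := ty.le zero_le_one b2
    have c3 := nm_add c1.1 c2.1
    have c4 : Sq p (mw (z (i k) - y.1) (v r)) :=
      e2 ▸ ⟨c1.1.add c2.1, (c1.2.add c2.2).trans (by rw [add_zero])⟩
    have a3 := h.up (le_max_right n r) c4
    rw [← e2] at c3
    rw [e1, mw_add]
    exact ⟨⟨a1.1.1.add a3.1.1, add_zero (0 : 𝕜) ▸ a1.1.2.add a3.1.2⟩, by
      linarith [nm_add a1.1.1 a3.1.1, a1.2, a3.2, (nm_le us.1 (by positivity) b1).2,
        (nm_le ty.1 zero_le_one b2).2]⟩
  refine ⟨fun k => N (i k), conv (fun k => (est k).1) (squeeze_zero (fun k => nm_nonneg (est k).1.1)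
    (fun k => (est k).2) ?_)⟩
  simpa using ((tail us).comp (Function.Injective.nat_tendsto_atTop fun a b c =>
    (i1 a).symm.trans ((congrArg (fun t => (e t).1) c).trans (i1 b)))).add
    (((tendsto_one_div_add_atTop_nhds_zero_nat (𝕜 := ℝ)).mul_const (nm p u)).add (tail hr))

end Pool.Agent.H.MP_b30f08_an
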